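import Mathlib
import Pool.Agent.Helper82.AN.FinalU

set_option autoImplicit false
open MeasureTheory Real Set Filter Topology

namespace Pool.Agent.Results.MP_9ee088_an.AnalyticModulation

variable {d : ℕ}

/-- the standard map `S_a(x, y) = (2x - y + a sin 2πx, x)` of the torus `T² = (ℝ/ℤ)²`, where
`sin 2πx` is the imaginary part of `e^{2πix}` -/
noncomputable def std (a : ℝ) (z : UnitAddCircle × UnitAddCircle) : UnitAddCircle × UnitAddCircle :=
  (z.1 + z.1 - z.2 + ((a * (fourier 1 z.1 : ℂ).im : ℝ) : UnitAddCircle), z.1)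

/-- the skew product `(θ, z) ↦ (θ + α, S_{f(θ)} z)` of `T^d × T²` -/
noncomputable def skew (α : Fin d → UnitAddCircle) (f : (Fin d → UnitAddCircle) → ℝ)
    (p : (Fin d → UnitAddCircle) × (UnitAddCircle × UnitAddCircle)) :
    (Fin d → UnitAddCircle) × (UnitAddCircle × UnitAddCircle) :=
  (p.1 + α, std (f p.1) p.2)

/-- the standard map lifted to the plane -/
noncomputable def lift (a : ℝ) (z : ℝ × ℝ) : ℝ × ℝ :=
  (2 * z.1 - z.2 + a * Real.sin (2 * π * z.1), z.1)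

/-- the composition `S_{f(θ + (n-1)α)} ⋯ S_{f(θ)}` lifted to the plane -/
noncomputable def liftn (α : Fin d → UnitAddCircle) (f : (Fin d → UnitAddCircle) → ℝ)
    (θ : Fin d → UnitAddCircle) : ℕ → ℝ × ℝ → ℝ × ℝ
  | 0 => id
  | n + 1 => fun z => lift (f (θ + n • α)) (liftn α f θ n z)

/-- the function on `ℝ^d` defined by a function on the torus `T^d = (ℝ/ℤ)^d` -/
def lf (f : (Fin d → UnitAddCircle) → ℝ) (x : Fin d → ℝ) : ℝ := f fun m => (x m : UnitAddCircle)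

/-- the law of independent random numbers `w i` with density `e^{-|x|}/2`, indexed by the functions
`cos 2πk·θ` (`i = (k, 0)`) and `sin 2πk·θ` (`i = (k, 1)`), `k ∈ ℤ^d` -/
noncomputable def law (d : ℕ) : Measure ((Fin d → ℤ) × Fin 2 → ℝ) :=
  Measure.infinitePi fun _ => volume.withDensity fun x : ℝ => ENNReal.ofReal (Real.exp (-|x|) / 2)

/-- the function `cos 2πk·θ` or `sin 2πk·θ` -/
noncomputable def bas (i : (Fin d → ℤ) × Fin 2) (θ : Fin d → UnitAddCircle) : ℝ :=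
  if i.2 = 0 then (fourier 1 (∑ m, i.1 m • θ m) : ℂ).re
  else (fourier 1 (∑ m, i.1 m • θ m) : ℂ).im

/-- the random function `N = ∑ e^{-|k|^γ} (w(k, 0) cos 2πk·θ + w(k, 1) sin 2πk·θ)`, `|k|` the
maximum norm -/
noncomputable def noise (γ : ℝ) (w : (Fin d → ℤ) × Fin 2 → ℝ) (θ : Fin d → UnitAddCircle) : ℝ :=
  ∑' i : (Fin d → ℤ) × Fin 2, Real.exp (-(‖i.1‖ ^ γ)) * w i * bas i θ

/-- an invariant set `O` of measure at least `1 - s`; all eigenfunctions of the skew product on `O`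
are multiples of characters of `T^d`, so it is ergodic on `O`; the exponent on the fibres is a
positive constant on `O` and differs from `∫ log⁺ |πf|` by at most `s` -/
def Good (α : Fin d → UnitAddCircle) (f : (Fin d → UnitAddCircle) → ℝ) (s : ℝ) : Prop :=
  ∃ O : Set ((Fin d → UnitAddCircle) × (UnitAddCircle × UnitAddCircle)),
    MeasurableSet O ∧ skew α f ⁻¹' O = O ∧ 1 - s ≤ volume.real O ∧
    (∀ (ξ : ℂ) (h : (Fin d → UnitAddCircle) × (UnitAddCircle × UnitAddCircle) → ℂ), Measurable h →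
      (∀ᵐ p, p ∈ O → h (skew α f p) = ξ * h p) →
      (∀ᵐ p, p ∈ O → h p = 0) ∨ ∃ (k : Fin d → ℤ) (b : ℂ), fourier 1 (∑ m, k m • α m) = ξ ∧
        ∀ᵐ p : (Fin d → UnitAddCircle) × (UnitAddCircle × UnitAddCircle), p ∈ O →
          h p = b * fourier 1 (∑ m, k m • p.1 m)) ∧
    ∃ L : ℝ, 0 < L ∧ |L - ∫ θ, Real.posLog (π * f θ)| ≤ s ∧
      ∀ᵐ θ : Fin d → UnitAddCircle, ∀ᵐ z : ℝ × ℝ,
        (θ, ((z.1 : UnitAddCircle), (z.2 : UnitAddCircle))) ∈ O →
        Tendsto (fun n : ℕ => Real.log ‖fderiv ℝ (liftn α f θ n) z‖ / n) atTop (𝓝 L)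

lemma liftn_eq (α : Fin d → UnitAddCircle) (f : (Fin d → UnitAddCircle) → ℝ)
    (θ : Fin d → UnitAddCircle) (n : ℕ) :
    liftn α f θ n = Pool.Agent.Helper46.QRO.liftn α f θ n := by
  induction n with
  | zero => rfl
  | succ n ih =>
    funext z
    show lift (f (θ + n • α)) (liftn α f θ n z) =
      Pool.Agent.Helper46.QRO.lift (f (θ + n • α)) (Pool.Agent.Helper46.QRO.liftn α f θ n z)
    rw [ih]
    rfl

lemma good_eq (α : Fin d → UnitAddCircle) (f : (Fin d → UnitAddCircle) → ℝ) (s : ℝ)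
    (h : Pool.Agent.Helper82.AN.GoodA α f s) : Good α f s := by
  have e : liftn α f = Pool.Agent.Helper46.QRO.liftn α f := by
    funext θ n
    exact liftn_eq _ _ _ _
  unfold Good
  rw [e]
  exact h

/-- Hölder continuous -/
def Hoelder (f : (Fin d → UnitAddCircle) → ℝ) : Prop :=
  ∃ K r : ℝ, 0 < r ∧ ∀ x y, |f x - f y| ≤ K * dist x y ^ r

/-- `α` has rationally independent coordinates and is Diophantine: `‖j α‖ ≥ δ j^(-τ)`, `‖ ‖` the
distance (maximum norm) from `0` in `T^d` -/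
def Dioph (δ τ : ℝ) (α : Fin d → UnitAddCircle) : Prop :=
  (∀ k : Fin d → ℤ, k ≠ 0 → ∑ m, k m • α m ≠ 0) ∧ ∀ j : ℕ, 1 ≤ j → δ * (j : ℝ) ^ (-τ) ≤ ‖j • α‖

/-- **Standard maps with an analytic quasi-periodic amplitude: ergodicity on a set of measure close
to one, for all large parameters and all Diophantine frequency vectors at once.** Let `0 < γ`,
`1/d < τ < 1/γ` and let `N` be the random function `noise γ w` (real analytic for `γ = 1`, entire for
`γ > 1`). For all Hölder continuous functions `g, e 0, .., e (k-1)`, `g` without zeros and `c < 2`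
or `vol {|g| < t} ≤ R t^c` and `c < 1`, almost surely, all amplitudes
`f = a g + q (∑ s i e i + N)` are good, for all Diophantine `α` (almost all `α`), all large
`M = max |a| |q|`, `|q| ≥ exp (-M ^ (c - ε))` and bounded `s`. -/
theorem result (d : ℕ) (γ τ : ℝ) (hd : 0 < d) (hγ : 0 < γ) (h1 : 1 / d < τ) (h2 : τ * γ < 1) :
    (∀ᵐ w ∂law d, (Summable fun i : (Fin d → ℤ) × Fin 2 => Real.exp (-(‖i.1‖ ^ γ)) * |w i|) ∧
      ∃ R : ℝ, (∀ n : ℕ, ContDiff ℝ n (lf (noise γ w))) ∧ ∀ (n : ℕ) (x : Fin d → ℝ),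
        ‖iteratedFDeriv ℝ n (lf (noise γ w)) x‖ ≤ R ^ (n + 1) * (n.factorial : ℝ) ^ (1 / γ)) ∧
    (∀ᵐ α : Fin d → UnitAddCircle, ∃ δ : ℝ, 0 < δ ∧ Dioph δ τ α) ∧
    ∀ (g : (Fin d → UnitAddCircle) → ℝ) (c ε : ℝ), Hoelder g → 0 < ε → ε < c →
      ((c < 2 ∧ ∀ θ, g θ ≠ 0) ∨
        (c < 1 ∧ ∃ R : ℝ, ∀ t : ℝ, 0 < t →
          volume {θ | |g θ| < t} ≤ ENNReal.ofReal (R * t ^ c))) →
      ∀ (k : ℕ) (e : Fin k → (Fin d → UnitAddCircle) → ℝ) (S : ℝ), (∀ i, Hoelder (e i)) →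
        ∃ κ : ℝ, 0 < κ ∧ ∀ᵐ w ∂law d, ∀ δ : ℝ, 0 < δ → ∃ A : ℝ, ∀ α : Fin d → UnitAddCircle,
          Dioph δ τ α → ∀ (a q : ℝ) (s : Fin k → ℝ), A ≤ max |a| |q| →
            Real.exp (-(max |a| |q|) ^ (c - ε)) ≤ |q| → (∀ i, |s i| ≤ S) →
            Good α (fun θ => a * g θ + q * ((∑ i, s i * e i θ) + noise γ w θ))
              ((max |a| |q|) ^ (-κ)) := by
  refine ⟨?_, ?_, ?_⟩
  · filter_upwards [Pool.Agent.Helper82.AN.Hw_ae (d := d) hγ,
      Pool.Agent.Helper82.AN.eta_gev (d := d) hγ] with w h3 h4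
    refine ⟨(ENNReal.summable_toReal h3).congr fun i => ?_, h4⟩
    exact ENNReal.toReal_ofReal (mul_nonneg (Real.exp_pos _).le (abs_nonneg _))
  · filter_upwards [Pool.Agent.Helper82.QP.dio_ae hd, Pool.Agent.Helper82.QP.ind_ae] with α h3 h4
    obtain ⟨δ, hδ, h5⟩ := h3 τ h1
    exact ⟨δ, hδ, h4, h5⟩
  · intro g c ε hg hε hεc hgn k e S he
    obtain ⟨κ, hκ, h3⟩ := Pool.Agent.Helper82.AN.fin_all hd hγ h1.le h2 hg hε hεc hgn he (max S 0)
    refine ⟨κ, hκ, ?_⟩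
    filter_upwards [h3] with w hw δ hδ
    obtain ⟨A, hA⟩ := hw δ hδ
    refine ⟨A, fun α hα a q s h4 h5 h6 => good_eq _ _ _ (hA α hα.2 hα.1 a q s h4 h5 ?_)⟩
    exact (pi_norm_le_iff_of_nonneg (le_max_right _ _)).2 fun i => (h6 i).trans (le_max_left _ _)

end Pool.Agent.Results.MP_9ee088_an.AnalyticModulation
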